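import Mathlib
import Pool.Agent.Work.MP_0ac5c2_an.PartF
import Pool.Agent.Work.MP_0ac5c2_an.Model

set_option autoImplicit false

open MeasureTheory Matrix

namespace Pool.Agent.Results.MP_0ac5c2_an.NotTruncatedToeplitz

noncomputable section

/-- Normalised Lebesgue measure on the unit circle, written as `ℝ/ℤ`
(the point `t` stands for `exp (2 π i t)`). -/
abbrev circleMeasure : Measure UnitAddCircle := AddCircle.haarAddCircle

/-- The inner product of `L²` of the circle, `⟨f, g⟩ = ∫ conj f g`. -/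
def ip (f g : UnitAddCircle → ℂ) : ℂ := ∫ t, (starRingEnd ℂ) (f t) * g t ∂circleMeasure

/-- `f` belongs to the Hardy space `H²`: it is square integrable and its Fourier coefficients of
negative index vanish. -/
def IsHardy (f : UnitAddCircle → ℂ) : Prop :=
  MemLp f 2 circleMeasure ∧ ∀ n : ℤ, n < 0 → fourierCoeff f n = 0

/-- `Θ` is (the boundary function of) an inner function: it is measurable, has modulus one almost
everywhere on the circle, and its Fourier coefficients of negative index vanish. -/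
def IsInner (Θ : UnitAddCircle → ℂ) : Prop :=
  AEStronglyMeasurable Θ circleMeasure ∧ (∀ᵐ t ∂circleMeasure, ‖Θ t‖ = 1) ∧
    ∀ n : ℤ, n < 0 → fourierCoeff Θ n = 0

/-- `f` belongs to the model space `K_Θ = H² ⊖ Θ H²`. -/
def InModelSpace (Θ f : UnitAddCircle → ℂ) : Prop :=
  IsHardy f ∧ ∀ h : UnitAddCircle → ℂ, IsHardy h → ip (fun t => Θ t * h t) f = 0

/-- `g = P_Θ F`, the orthogonal projection of the `L²` function `F` to `K_Θ`. -/
def IsProjection (Θ F g : UnitAddCircle → ℂ) : Prop :=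
  InModelSpace Θ g ∧ ∀ k : UnitAddCircle → ℂ, InModelSpace Θ k → ip k (fun t => F t - g t) = 0

/-- `b` is an orthonormal basis of `K_Θ` (functions are identified if they agree almost
everywhere). -/
def IsOrthonormalBasis {n : ℕ} (Θ : UnitAddCircle → ℂ) (b : Fin n → UnitAddCircle → ℂ) : Prop :=
  (∀ i, InModelSpace Θ (b i)) ∧ (∀ i j, ip (b i) (b j) = if i = j then 1 else 0) ∧
    ∀ f : UnitAddCircle → ℂ, InModelSpace Θ f →
      ∃ x : Fin n → ℂ, ∀ᵐ t ∂circleMeasure, f t = ∑ i, x i * b i t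

/-- The linear map `ℂⁿ → L²`, `x ↦ x_1 b_1 + ... + x_n b_n`; if `b` is an orthonormal basis of
`K_Θ`, it is a unitary operator of `ℂⁿ` onto `K_Θ`, and all unitary operators of `ℂⁿ` onto `K_Θ`
are of this form. -/
def U {n : ℕ} (b : Fin n → UnitAddCircle → ℂ) (x : Fin n → ℂ) : UnitAddCircle → ℂ :=
  fun t => ∑ i, x i * b i t

/-- `M` is unitarily equivalent to a truncated Toeplitz operator: there are an inner function `Θ`,
a symbol `φ ∈ L^∞` and a unitary operator `U` of `ℂⁿ` onto `K_Θ` such that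
`U (M x) = P_Θ (φ (U x))` for all `x`. -/
def UnitarilyEquivalentToTruncatedToeplitz {n : ℕ} (M : Matrix (Fin n) (Fin n) ℂ) : Prop :=
  ∃ Θ φ : UnitAddCircle → ℂ, ∃ b : Fin n → UnitAddCircle → ℂ,
    IsInner Θ ∧ MemLp φ ⊤ circleMeasure ∧ IsOrthonormalBasis Θ b ∧
      ∀ x : Fin n → ℂ, IsProjection Θ (fun t => φ t * U b x t) (U b (M.mulVec x))

/-- `M` has a pair of orthogonal nonzero eigenvectors. -/
def HasOrthogonalEigenvectors {n : ℕ} (M : Matrix (Fin n) (Fin n) ℂ) : Prop :=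
  ∃ x y : Fin n → ℂ, ∃ a b : ℂ, x ≠ 0 ∧ y ≠ 0 ∧ M.mulVec x = a • x ∧ M.mulVec y = b • y ∧
    ∑ i, (starRingEnd ℂ) (x i) * y i = 0

open Pool.Agent.Work.MP_0ac5c2_an

/-! ### Translation to `L²` -/

lemma ip_eq {f g : UnitAddCircle → ℂ} (hf : MemLp f 2 circleMeasure)
    (hg : MemLp g 2 circleMeasure) : ip f g = inner ℂ (hf.toLp f : Model.L2) (hg.toLp g) := by
  rw [ip, L2.inner_def]
  apply integral_congr_ae
  filter_upwards [hf.coeFn_toLp, hg.coeFn_toLp] with t h1 h2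
  rw [h1, h2]
  simp [RCLike.inner_apply, mul_comm]

lemma toLp_mem_H2 {f : UnitAddCircle → ℂ} (hf : IsHardy f) :
    (hf.1.toLp f : Model.L2) ∈ Model.H2 := by
  intro n hn
  exact (congrFun (fourierCoeff_congr_ae (T := 1) hf.1.coeFn_toLp) n).trans (hf.2 n hn)

lemma isHardy_coe {f : Model.L2} (hf : f ∈ Model.H2) : IsHardy f := ⟨Lp.memLp f, hf⟩

lemma memLp_top_of_inner {Θ : UnitAddCircle → ℂ} (hΘ : IsInner Θ) : MemLp Θ ⊤ circleMeasure :=
  memLp_top_of_bound hΘ.1 1 (hΘ.2.1.mono fun _ h => h.le)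

lemma model_isInner {Θ : UnitAddCircle → ℂ} (hΘ : IsInner Θ) :
    Model.IsInner ((memLp_top_of_inner hΘ).toLp Θ) := by
  refine ⟨?_, ?_⟩
  · filter_upwards [hΘ.2.1, (memLp_top_of_inner hΘ).coeFn_toLp] with t h1 h2
    rw [h2, h1]
  · intro n hn
    exact (congrFun (fourierCoeff_congr_ae (T := 1)
      (memLp_top_of_inner hΘ).coeFn_toLp) n).trans (hΘ.2.2 n hn)

lemma memLp_mul {φ f : UnitAddCircle → ℂ} (hφ : MemLp φ ⊤ circleMeasure)
    (hf : MemLp f 2 circleMeasure) : MemLp (fun t => φ t * f t) 2 circleMeasure :=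
  MemLp.mul' hf hφ

lemma mulBy_toLp {φ f : UnitAddCircle → ℂ} (hφ : MemLp φ ⊤ circleMeasure)
    (hf : MemLp f 2 circleMeasure) :
    Model.mulBy (hφ.toLp φ) (hf.toLp f) = (memLp_mul hφ hf).toLp (fun t => φ t * f t) := by
  apply Lp.ext
  filter_upwards [Model.coeFn_mulBy (hφ.toLp φ) (hf.toLp f), hφ.coeFn_toLp, hf.coeFn_toLp,
    (memLp_mul hφ hf).coeFn_toLp] with t h1 h2 h3 h4
  rw [h1, h2, h3, h4]

lemma toLp_mem_model {Θ f : UnitAddCircle → ℂ} (hΘ : IsInner Θ) (hf : InModelSpace Θ f) :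
    (hf.1.1.toLp f : Model.L2) ∈ Model.modelSpace ((memLp_top_of_inner hΘ).toLp Θ) := by
  refine Submodule.mem_inf.2 ⟨toLp_mem_H2 hf.1, ?_⟩
  rw [Submodule.mem_orthogonal]
  rintro _ ⟨h, hh, rfl⟩
  have h1 : (h : Model.L2) = (Lp.memLp h).toLp h := (Lp.toLp_coeFn h (Lp.memLp h)).symm
  rw [ContinuousLinearMap.coe_coe, h1, mulBy_toLp, ← ip_eq]
  exact hf.2 h (isHardy_coe hh)

lemma inModelSpace_coe {Θ : UnitAddCircle → ℂ} (hΘ : IsInner Θ) {f : Model.L2}
    (hf : f ∈ Model.modelSpace ((memLp_top_of_inner hΘ).toLp Θ)) : InModelSpace Θ f := by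
  obtain ⟨h1, h2⟩ := Submodule.mem_inf.1 hf
  refine ⟨isHardy_coe h1, fun h hh => ?_⟩
  rw [ip_eq (memLp_mul (memLp_top_of_inner hΘ) hh.1) (Lp.memLp f),
    ← mulBy_toLp (memLp_top_of_inner hΘ) hh.1, Lp.toLp_coeFn f (Lp.memLp f)]
  exact (Submodule.mem_orthogonal _ _).1 h2 _ ⟨hh.1.toLp h, toLp_mem_H2 hh, rfl⟩

lemma memLp_U {n : ℕ} {b : Fin n → UnitAddCircle → ℂ} (hb : ∀ i, MemLp (b i) 2 circleMeasure)
    (x : Fin n → ℂ) : MemLp (U b x) 2 circleMeasure :=
  memLp_finsetSum _ fun i _ => (hb i).const_mul (x i)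

lemma toLp_U {n : ℕ} {b : Fin n → UnitAddCircle → ℂ} (hb : ∀ i, MemLp (b i) 2 circleMeasure)
    (x : Fin n → ℂ) :
    ((memLp_U hb x).toLp (U b x) : Model.L2) = ∑ i, x i • (hb i).toLp (b i) := by
  apply Lp.ext
  have h2 := Lp.coeFn_finsetSum (Finset.univ : Finset (Fin n))
    (fun i => (x i • (hb i).toLp (b i) : Model.L2))
  have h3 : ∀ i, ∀ᵐ t ∂circleMeasure, ((x i • (hb i).toLp (b i) : Model.L2) :
      UnitAddCircle → ℂ) t = x i * b i t := by
    intro i
    filter_upwards [Lp.coeFn_smul (x i) ((hb i).toLp (b i) : Model.L2), (hb i).coeFn_toLp]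
      with t h4 h5
    rw [h4, Pi.smul_apply, smul_eq_mul, h5]
  filter_upwards [(memLp_U hb x).coeFn_toLp, h2, ae_all_iff.2 h3] with t h1 h6 h7
  rw [h1, h6, Finset.sum_apply, U]
  exact Finset.sum_congr rfl fun i _ => (h7 i).symm

lemma exists_basis {n : ℕ} {M : Matrix (Fin n) (Fin n) ℂ}
    (hM : UnitarilyEquivalentToTruncatedToeplitz M) :
    ∃ (Θ φ : Model.Linfty) (v : OrthonormalBasis (Fin n) ℂ (Model.modelSpace Θ)),
      Model.IsInner Θ ∧ M = Model.mat v (Model.truncatedToeplitz Θ φ) := by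
  obtain ⟨Θ, φ, b, hΘ, hφ, ⟨hb1, hb2, hb3⟩, hU⟩ := hM
  set Θ' : Model.Linfty := (memLp_top_of_inner hΘ).toLp Θ with hΘ'
  set v : Fin n → Model.modelSpace Θ' := fun i => ⟨(hb1 i).1.1.toLp (b i), toLp_mem_model hΘ (hb1 i)⟩
    with hv
  have hon : Orthonormal ℂ v := by
    rw [orthonormal_iff_ite]
    intro i j
    rw [← hb2 i j, ip_eq (hb1 i).1.1 (hb1 j).1.1]
    rfl
  have hsp : ⊤ ≤ Submodule.span ℂ (Set.range v) := by
    intro f _
    obtain ⟨x, hx⟩ := hb3 f (inModelSpace_coe hΘ f.2)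
    have : f = ∑ i, x i • v i := by
      apply Subtype.ext
      have h1 : (f : Model.L2) = (memLp_U (fun i => (hb1 i).1.1) x).toLp (U b x) := by
        apply Lp.ext
        filter_upwards [hx, (memLp_U (fun i => (hb1 i).1.1) x).coeFn_toLp] with t h8 h9
        rw [h8, h9, U]
      rw [h1, toLp_U (fun i => (hb1 i).1.1) x, Submodule.coe_sum]
      rfl
    rw [this]
    exact Submodule.sum_mem _ fun i _ => Submodule.smul_mem _ _ (Submodule.subset_span ⟨i, rfl⟩)
  refine ⟨Θ', hφ.toLp φ, OrthonormalBasis.mk hon hsp, model_isInner hΘ, ?_⟩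
  ext i j
  rw [Model.mat, Matrix.of_apply, OrthonormalBasis.coe_mk, Model.truncatedToeplitz,
    ContinuousLinearMap.comp_apply, ContinuousLinearMap.comp_apply, Submodule.subtypeL_apply,
    Model.inner_proj]
  have h1 := (hU (Pi.single j 1)).2 (b i) (hb1 i)
  have h2 : U b (Pi.single j 1) = b j := by
    funext t
    simp [U, Pi.single_apply]
  have h3 : U b (M.mulVec (Pi.single j 1)) = fun t => ∑ l, M l j * b l t := by
    funext t
    simp [U]
  rw [h2] at h1
  have hb : ∀ i, MemLp (b i) 2 circleMeasure := fun i => (hb1 i).1.1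
  have h4 : ip (b i) (fun t => φ t * b j t - U b (M.mulVec (Pi.single j 1)) t) =
      inner ℂ ((hb i).toLp (b i) : Model.L2) (Model.mulBy (hφ.toLp φ) ((hb j).toLp (b j))) -
        M i j := by
    have h5 : MemLp (fun t => φ t * b j t - U b (M.mulVec (Pi.single j 1)) t) 2 circleMeasure :=
      (memLp_mul hφ (hb j)).sub (memLp_U hb _)
    rw [ip_eq (hb i) h5]
    have h6 : (h5.toLp _ : Model.L2) = Model.mulBy (hφ.toLp φ) ((hb j).toLp (b j)) -
        ∑ l, M l j • (hb l).toLp (b l) := by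
      have h7 : M.mulVec (Pi.single j 1) = fun l => M l j := by
        funext l; simp
      have h8 := toLp_U hb (fun l => M l j)
      rw [← h8, mulBy_toLp hφ (hb j), ← MemLp.toLp_sub]
      simp only [h7]
      rfl
    rw [h6, inner_sub_right, inner_sum]
    congr 1
    have h9 : ∀ l, inner ℂ ((hb i).toLp (b i) : Model.L2) (M l j • (hb l).toLp (b l) : Model.L2) =
        if i = l then M l j else 0 := by
      intro l
      rw [inner_smul_right, ← ip_eq (hb i) (hb l), hb2 i l]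
      split_ifs <;> simp
    simp only [h9, Finset.sum_ite_eq, Finset.mem_univ, if_true]
  rw [h4, sub_eq_zero] at h1
  exact h1.symm

lemma noOrth_iff {n : ℕ} (M : Matrix (Fin n) (Fin n) ℂ) :
    ¬ HasOrthogonalEigenvectors M ↔ NoOrth M := Iff.rfl

/-- For every `n ≥ 12`: there are complex symmetric `n × n` matrices without a pair of
orthogonal nonzero eigenvectors, and arbitrarily close to each of them there is another one
which is not unitarily equivalent to any truncated Toeplitz operator. -/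
theorem result (n : ℕ) (hn : 12 ≤ n) :
    (∃ M : Matrix (Fin n) (Fin n) ℂ, M.IsSymm ∧ ¬ HasOrthogonalEigenvectors M) ∧
    ∀ M₀ : Matrix (Fin n) (Fin n) ℂ, M₀.IsSymm → ¬ HasOrthogonalEigenvectors M₀ →
      ∀ ε : ℝ, 0 < ε → ∃ M : Matrix (Fin n) (Fin n) ℂ, M.IsSymm ∧
        ¬ HasOrthogonalEigenvectors M ∧ (∀ i j, ‖M i j - M₀ i j‖ < ε) ∧
        ¬ UnitarilyEquivalentToTruncatedToeplitz M := by
  refine ⟨?_, ?_⟩
  · obtain ⟨m0, hm0⟩ := exists_noOrth n
    exact ⟨symC m0, symC_symm m0, (noOrth_iff _).2 hm0⟩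
  · intro M₀ hs h0 ε hε
    set m0 : Sym2 (Fin n) → ℂ := fun s => M₀ s.out.1 s.out.2 with hm0
    have hsym : symC m0 = M₀ := by
      ext i j
      simp only [symC, Matrix.of_apply, hm0]
      have h1 : s((s(i, j)).out.1, (s(i, j)).out.2) = s(i, j) := Quot.out_eq _
      rw [Sym2.eq_iff] at h1
      rcases h1 with ⟨h1, h2⟩ | ⟨h1, h2⟩
      · rw [h1, h2]
      · rw [h1, h2]; exact hs.apply i j
    have hopen : IsOpen ({m : Sym2 (Fin n) → ℂ | NoOrth (symC m)} ∩ Metric.ball m0 ε) :=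
      (isOpen_noOrth n).inter Metric.isOpen_ball
    have hne : ({m : Sym2 (Fin n) → ℂ | NoOrth (symC m)} ∩ Metric.ball m0 ε).Nonempty :=
      ⟨m0, by
        rw [Set.mem_inter_iff]
        refine ⟨?_, Metric.mem_ball_self hε⟩
        change NoOrth (symC m0)
        rw [hsym]; exact (noOrth_iff _).1 h0⟩
    obtain ⟨m, ⟨hm1, hm3⟩, hm2⟩ := (dense_compl n hn).inter_open_nonempty _ hopen hne
    refine ⟨symC m, symC_symm m, (noOrth_iff _).2 hm1, ?_, ?_⟩
    · intro i j
      have h2 := (dist_pi_lt_iff hε).1 (Metric.mem_ball.1 hm3) s(i, j)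
      rw [dist_eq_norm] at h2
      have h3 : M₀ i j = m0 s(i, j) := by rw [← hsym]; rfl
      rw [h3]
      exact h2
    · intro hU
      obtain ⟨Θ, φ, v, hΘ, hMv⟩ := exists_basis hU
      obtain ⟨T, k, u, w, hk, hT, hM⟩ := Model.exists_displacement hΘ v hMv
      obtain ⟨e, he⟩ := mem_range (by omega) (symC m) T k u w (symC_symm m) hm1 hk hT hM
      apply hm2
      refine ⟨e, ?_⟩
      funext s
      simp only [fpar, he, symC, Matrix.of_apply]
      congr 1
      exact Quot.out_eq s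

end

end Pool.Agent.Results.MP_0ac5c2_an.NotTruncatedToeplitz
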